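import Pool.Agent.H84.Fe

namespace Pool.Agent.Results.MP_26c4ab_lc.No

open Pool.Agent.H84.FeDefs

theorem result : ∃ F : ℕ → Ultrafilter ℕ+, (∀ i j, i ≤ j → FeU (F j) (F i)) ∧
    ¬ ∃ G, (∀ i, FeU G (F i)) ∧ ∀ H, (∀ i, FeU H (F i)) → FeU H G :=
  Pool.Agent.H84.Fe.main

end Pool.Agent.Results.MP_26c4ab_lc.No
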